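import Pool.Agent.R858.CY.Main

/-!
Finite groups with few cyclic subgroups are solvable.
-/

set_option autoImplicit false

namespace Pool.Agent.Results.MP_5fac9c_al.FewCyclicSubgroups

universe u

/-- Let `G` be a finite group and `t` the number of primes dividing the order of `G`. If `G` has fewer
than `2 ^ (t + 2)` cyclic subgroups, then `G` is solvable. -/
theorem result (G : Type u) [Group G] [Finite G]
    (h : Nat.card {H : Subgroup G // IsCyclic H} < 2 ^ ((Nat.card G).primeFactors.card + 2)) :
    Group.IsSolvable G :=
  Pool.Agent.R858.CY.main G h

end Pool.Agent.Results.MP_5fac9c_al.FewCyclicSubgroups
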